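import Mathlib

namespace MP6bd

/-- multiplication by `D ≠ 0` on `ZMod n` is at most `|D|` to one -/
theorem card_mul_zero_le (n : ℕ) [NeZero n] (D : ℤ) (hD : D ≠ 0) :
    (Finset.univ.filter (fun x : ZMod n => (D : ZMod n) * x = 0)).card ≤ D.natAbs := by
  have hn : 0 < n := Nat.pos_of_ne_zero (NeZero.ne n)
  have key : ∀ x : ZMod n, (D : ZMod n) * x = 0 → (n : ℕ) ∣ D.natAbs * x.val := by
    intro x hx
    have h1 : ((D * (x.val : ℤ) : ℤ) : ZMod n) = 0 := by
      push_cast
      rw [ZMod.natCast_zmod_val]
      exact hx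
    rw [ZMod.intCast_zmod_eq_zero_iff_dvd] at h1
    have h2 := Int.natAbs_dvd_natAbs.mpr h1
    rwa [Int.natAbs_natCast, Int.natAbs_mul, Int.natAbs_natCast] at h2
  calc (Finset.univ.filter (fun x : ZMod n => (D : ZMod n) * x = 0)).card
      ≤ (Finset.range D.natAbs).card := by
        refine Finset.card_le_card_of_injOn (fun x => D.natAbs * x.val / n) ?_ ?_
        · intro x hx
          simp only [Finset.coe_filter, Finset.mem_univ, true_and, Set.mem_ofPred_eq] at hx
          simp only [Finset.coe_range, Set.mem_Iio]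
          rw [Nat.div_lt_iff_lt_mul hn]
          exact Nat.mul_lt_mul_of_pos_left (ZMod.val_lt x) (Int.natAbs_pos.mpr hD)
        · intro x hx y hy hxy
          simp only [Finset.coe_filter, Finset.mem_univ, true_and, Set.mem_ofPred_eq] at hx hy
          have h1 := Nat.div_mul_cancel (key x hx)
          have h2 := Nat.div_mul_cancel (key y hy)
          simp only at hxy
          rw [hxy, h2] at h1
          have h3 := Nat.eq_of_mul_eq_mul_left (Int.natAbs_pos.mpr hD) h1
          exact (ZMod.val_injective n h3).symm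
    _ = D.natAbs := Finset.card_range _

/-- **Exclusion count.** -/
theorem card_two_zero_le {Y : Type*} [AddCommGroup Y] [Fintype Y] [DecidableEq Y] (n : ℕ) [NeZero n]
    (f g : Y →+ ZMod n) (y₁ y₂ : Y) (D : ℤ) (hD : D ≠ 0)
    (hdet : f y₁ * g y₂ - f y₂ * g y₁ = (D : ZMod n)) :
    (Finset.univ.filter (fun y : Y => f y = 0 ∧ g y = 0)).card * n ^ 2 ≤ D.natAbs ^ 2 * Fintype.card Y := by
  classical
  set u : Y := (g y₂).val • y₁ - (g y₁).val • y₂ with hu
  set v : Y := (f y₁).val • y₂ - (f y₂).val • y₁ with hv
  have hcast : ∀ a : ZMod n, ((a.val : ℕ) : ZMod n) = a := fun a => ZMod.natCast_zmod_val a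
  have hfu : f u = D := by
    rw [hu, map_sub, map_nsmul, map_nsmul, nsmul_eq_mul, nsmul_eq_mul, hcast, hcast, ← hdet]; ring
  have hgu : g u = 0 := by
    rw [hu, map_sub, map_nsmul, map_nsmul, nsmul_eq_mul, nsmul_eq_mul, hcast, hcast]; ring
  have hfv : f v = 0 := by
    rw [hv, map_sub, map_nsmul, map_nsmul, nsmul_eq_mul, nsmul_eq_mul, hcast, hcast]; ring
  have hgv : g v = D := by
    rw [hv, map_sub, map_nsmul, map_nsmul, nsmul_eq_mul, nsmul_eq_mul, hcast, hcast, ← hdet]
  set S := Finset.univ.filter (fun y : Y => f y = 0 ∧ g y = 0) with hS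
  let F : Y × (ZMod n × ZMod n) → Y := fun p => p.1 + p.2.1.val • u + p.2.2.val • v
  have hFf : ∀ p : Y × (ZMod n × ZMod n), p.1 ∈ S → f (F p) = D * p.2.1 := by
    intro p hp
    rw [hS, Finset.mem_filter] at hp
    simp only [F, map_add, map_nsmul, nsmul_eq_mul, hcast, hfu, hfv, hp.2.1]
    ring
  have hFg : ∀ p : Y × (ZMod n × ZMod n), p.1 ∈ S → g (F p) = D * p.2.2 := by
    intro p hp
    rw [hS, Finset.mem_filter] at hp
    simp only [F, map_add, map_nsmul, nsmul_eq_mul, hcast, hgu, hgv, hp.2.2]
    ring
  have hmain := Finset.card_le_mul_card_image_of_maps_to (s := S ×ˢ (Finset.univ : Finset (ZMod n × ZMod n)))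
    (t := (Finset.univ : Finset Y)) (f := F) (fun _ _ => Finset.mem_univ _) (D.natAbs ^ 2) (by
      intro y _
      by_cases hne : (Finset.filter (fun x => F x = y) (S ×ˢ (Finset.univ : Finset (ZMod n × ZMod n)))).Nonempty
      · obtain ⟨p0, hp0⟩ := hne
        rw [Finset.mem_filter, Finset.mem_product] at hp0
        have hsub : (Finset.filter (fun x => F x = y) (S ×ˢ (Finset.univ : Finset (ZMod n × ZMod n)))).card
            ≤ ((Finset.univ.filter (fun x : ZMod n => (D : ZMod n) * x = 0)) ×ˢ
              (Finset.univ.filter (fun x : ZMod n => (D : ZMod n) * x = 0))).card := by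
          refine Finset.card_le_card_of_injOn (fun p => (p.2.1 - p0.2.1, p.2.2 - p0.2.2)) ?_ ?_
          · intro p hp
            simp only [Finset.coe_filter, Finset.mem_product, Finset.mem_univ, and_true, Set.mem_ofPred_eq] at hp
            have e1 := hFf p hp.1
            have e2 := hFf p0 hp0.1.1
            have e3 := hFg p hp.1
            have e4 := hFg p0 hp0.1.1
            rw [hp.2] at e1 e3
            rw [hp0.2] at e2 e4
            simp only [Finset.coe_product, Finset.coe_filter, Finset.mem_univ, true_and, Set.mem_prod, Set.mem_ofPred_eq]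
            constructor
            · rw [mul_sub, ← e1, ← e2, sub_self]
            · rw [mul_sub, ← e3, ← e4, sub_self]
          · intro p hp q hq hpq
            simp only [Finset.coe_filter, Finset.mem_product, Finset.mem_univ, and_true, Set.mem_ofPred_eq] at hp hq
            simp only [Prod.mk.injEq, sub_left_inj] at hpq
            have h1 : p.2 = q.2 := Prod.ext hpq.1 hpq.2
            have h2 : F p = F q := by rw [hp.2, hq.2]
            simp only [F, h1, add_left_inj] at h2
            exact Prod.ext h2 h1
        refine hsub.trans ?_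
        rw [Finset.card_product, sq]
        exact Nat.mul_le_mul (card_mul_zero_le n D hD) (card_mul_zero_le n D hD)
      · rw [Finset.not_nonempty_iff_eq_empty] at hne
        rw [hne]
        simp)
  rw [Finset.card_product, Finset.card_univ, Fintype.card_prod, ZMod.card, Finset.card_univ] at hmain
  rw [sq n]
  exact hmain

end MP6bd
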