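import Pool.Agent.Lib.SlopeB.Defs2
import Pool.Agent.Lib.BD46.Excl

set_option autoImplicit false

open scoped Matrix.Norms.Elementwise Real Topology
open Complex Matrix MP6feb Filter

noncomputable section

namespace SlopeB

theorem dvd_iff_castHom {K r : ℕ} (h : r ≤ K) (x : ZMod (2 ^ K)) :
    (2 : ZMod (2 ^ K)) ^ r ∣ x ↔ ZMod.castHom (pow_dvd_pow 2 h) (ZMod (2 ^ r)) x = 0 := by
  constructor
  · rintro ⟨y, rfl⟩
    rw [map_mul, map_pow, map_ofNat]
    have : ((2 ^ r : ℕ) : ZMod (2 ^ r)) = 0 := ZMod.natCast_self _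
    push_cast at this
    rw [this, zero_mul]
  · intro hx
    have h1 : ((x.val : ℕ) : ZMod (2 ^ r)) = 0 := by
      rw [← hx]
      simp [ZMod.castHom_apply]
    rw [ZMod.natCast_eq_zero_iff] at h1
    obtain ⟨m, hm⟩ := h1
    refine ⟨(m : ZMod (2 ^ K)), ?_⟩
    rw [← ZMod.natCast_zmod_val x, hm]
    push_cast
    ring

/-- the pairing with `s` as an additive map -/
def prH {b n : ℕ} (s : Fin b → ℤ) : (Fin b → ZMod n) →+ ZMod n where
  toFun y := pr y s
  map_zero' := by simp [pr]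
  map_add' y y' := by simp [pr, add_mul, Finset.sum_add_distrib]

theorem excl_pair {b K r : ℕ} (h : r ≤ K) (k k' : Fin b → ℤ) (i j : Fin b)
    (hD : k i * k' j - k j * k' i ≠ 0) :
    (Finset.univ.filter (fun y : Fin b → ZMod (2 ^ K) =>
      (2 : ZMod (2 ^ K)) ^ r ∣ pr y k ∧ (2 : ZMod (2 ^ K)) ^ r ∣ pr y k')).card * 4 ^ r ≤
      (k i * k' j - k j * k' i).natAbs ^ 2 * (2 ^ K) ^ b := by
  classical
  have : NeZero (2 ^ r) := ⟨by positivity⟩
  have : NeZero (2 ^ K) := ⟨by positivity⟩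
  set φ := ZMod.castHom (pow_dvd_pow 2 h) (ZMod (2 ^ r)) with hφ
  have key := MP6bd.card_two_zero_le (Y := Fin b → ZMod (2 ^ K)) (2 ^ r)
    (φ.toAddMonoidHom.comp (prH k)) (φ.toAddMonoidHom.comp (prH k')) (Pi.single i 1) (Pi.single j 1)
    (k i * k' j - k j * k' i) hD (by
      have e : ∀ (s : Fin b → ℤ) (t : Fin b), prH (n := 2 ^ K) s (Pi.single t 1) = (s t : ZMod (2 ^ K)) := by
        intro s t
        simp only [prH, pr, AddMonoidHom.coe_mk, ZeroHom.coe_mk]
        rw [Finset.sum_eq_single t]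
        · simp
        · intro t' _ ht
          simp [Pi.single_eq_of_ne ht]
        · simp
      simp only [AddMonoidHom.coe_comp, Function.comp_apply, e, RingHom.toAddMonoidHom_eq_coe,
        AddMonoidHom.coe_coe, map_intCast]
      push_cast
      ring)
  have e1 : (Finset.univ.filter (fun y : Fin b → ZMod (2 ^ K) =>
      (2 : ZMod (2 ^ K)) ^ r ∣ pr y k ∧ (2 : ZMod (2 ^ K)) ^ r ∣ pr y k')) =
      (Finset.univ.filter (fun y : Fin b → ZMod (2 ^ K) =>
        (φ.toAddMonoidHom.comp (prH k)) y = 0 ∧ (φ.toAddMonoidHom.comp (prH k')) y = 0)) := by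
    ext y
    simp only [Finset.mem_filter, Finset.mem_univ, true_and]
    rw [dvd_iff_castHom h, dvd_iff_castHom h]
    rfl
  rw [e1]
  have e2 : (4:ℕ) ^ r = (2 ^ r) ^ 2 := by rw [← pow_mul, mul_comm, pow_mul]; norm_num
  have e3 : Fintype.card (Fin b → ZMod (2 ^ K)) = (2 ^ K) ^ b := by
    rw [Fintype.card_fun, ZMod.card, Fintype.card_fin]
  rw [e2, ← e3]
  exact key

end SlopeB
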