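import Pool.Agent.Lib.SlopeB.Defs2

set_option autoImplicit false

open scoped Matrix.Norms.Elementwise Real Topology
open Complex Matrix MP6feb Filter

noncomputable section

namespace SlopeB

theorem f46_prZ {b n : ℕ} [NeZero n] (y : Fin b → ZMod n) (s : Fin b → ℤ) :
    ((prZ y s : ℤ) : ZMod n) = pr y s := by
  simp [prZ, pr]

theorem f46_ch {b K : ℕ} (y : Fin b → ZMod (2 ^ K)) (s : Fin b → ℤ) :
    ch K y s = ZMod.stdAddChar (pr y s) := by
  rw [← f46_prZ, ZMod.stdAddChar_coe, ch]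
  congr 1
  push_cast
  ring

theorem f46_pr_add {b n : ℕ} (y u : Fin b → ZMod n) (s : Fin b → ℤ) :
    pr (y + u) s = pr y s + pr u s := by
  simp [pr, add_mul, Finset.sum_add_distrib]

theorem f46_ch_add {b K : ℕ} (y u : Fin b → ZMod (2 ^ K)) (s : Fin b → ℤ) :
    ch K (y + u) s = ch K y s * ch K u s := by
  rw [f46_ch, f46_ch, f46_ch, f46_pr_add, AddChar.map_add_eq_mul]

theorem f46_norm {b K : ℕ} (y : Fin b → ZMod (2 ^ K)) (s : Fin b → ℤ) : ‖ch K y s‖ = 1 := by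
  have : ch K y s = cexp (((2 * π * ((prZ y s : ℝ) / 2 ^ K) : ℝ) : ℂ) * I) := by
    rw [ch]
    congr 1
    push_cast
    ring
  rw [this, Complex.norm_exp_ofReal_mul_I]

theorem f46_vanish {b K : ℕ} (Y : Finset (Fin b → ZMod (2 ^ K))) (u : Fin b → ZMod (2 ^ K))
    (s : Fin b → ℤ) (hY : ∀ y ∈ Y, y + u ∈ Y) (hu : ch K u s ≠ 1) : ∑ y ∈ Y, ch K y s = 0 := by
  classical
  have hbij : ∑ y ∈ Y, ch K (y + u) s = ∑ y ∈ Y, ch K y s := by
    have himg : Y.image (fun y => y + u) = Y := by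
      apply Finset.eq_of_subset_of_card_le
      · intro y hy
        obtain ⟨y', hy', rfl⟩ := Finset.mem_image.mp hy
        exact hY y' hy'
      · rw [Finset.card_image_of_injective _ (add_left_injective u)]
    conv_rhs => rw [← himg]
    rw [Finset.sum_image (fun a _ b _ h => add_left_injective u h)]
  simp only [f46_ch_add] at hbij
  rw [← Finset.sum_mul] at hbij
  have h1 : (∑ y ∈ Y, ch K y s) * (ch K u s - 1) = 0 := by
    rw [mul_sub, hbij]; ring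
  rcases mul_eq_zero.mp h1 with h | h
  · exact h
  · exact absurd (sub_eq_zero.mp h) hu

theorem f46_avg {α : Type} [DecidableEq α] (Y Y' : Finset α) (hsub : Y' ⊆ Y) (hne : Y'.Nonempty) (f : α → ℂ)
    (hf : ∀ y, ‖f y‖ ≤ 1) (p : ℝ) (hp : ((Y \ Y').card : ℝ) ≤ p * Y.card) :
    ‖(Y'.card : ℂ)⁻¹ * ∑ y ∈ Y', f y - (Y.card : ℂ)⁻¹ * ∑ y ∈ Y, f y‖ ≤ 2 * p := by
  have hY' : (0:ℝ) < Y'.card := by exact_mod_cast hne.card_pos
  have hYn : Y.Nonempty := hne.mono hsub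
  have hY : (0:ℝ) < Y.card := by exact_mod_cast hYn.card_pos
  have hcard : (Y.card : ℝ) = Y'.card + (Y \ Y').card := by
    have := Finset.card_sdiff_add_card_eq_card hsub
    rw [← this]; push_cast; ring
  have hsum : ∑ y ∈ Y, f y = ∑ y ∈ Y \ Y', f y + ∑ y ∈ Y', f y := (Finset.sum_sdiff hsub).symm
  have b1 : ‖∑ y ∈ Y', f y‖ ≤ Y'.card := by
    refine (norm_sum_le _ _).trans ?_
    refine (Finset.sum_le_sum fun y _ => hf y).trans ?_
    simp
  have b2 : ‖∑ y ∈ Y \ Y', f y‖ ≤ (Y \ Y').card := by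
    refine (norm_sum_le _ _).trans ?_
    refine (Finset.sum_le_sum fun y _ => hf y).trans ?_
    simp
  have hY'c : (Y'.card : ℂ) ≠ 0 := by exact_mod_cast hY'.ne'
  have hYc : (Y.card : ℂ) ≠ 0 := by exact_mod_cast hY.ne'
  have hcc : (Y.card : ℂ) = Y'.card + (Y \ Y').card := by exact_mod_cast hcard
  have e : (Y'.card : ℂ)⁻¹ * ∑ y ∈ Y', f y - (Y.card : ℂ)⁻¹ * ∑ y ∈ Y, f y =
      (Y.card : ℂ)⁻¹ * (((Y \ Y').card : ℂ) * ((Y'.card : ℂ)⁻¹ * ∑ y ∈ Y', f y) - ∑ y ∈ Y \ Y', f y) := by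
    rw [hsum]
    field_simp
    rw [hcc]
    ring
  rw [e, norm_mul, norm_inv, Complex.norm_natCast]
  have b3 : ‖((Y \ Y').card : ℂ) * ((Y'.card : ℂ)⁻¹ * ∑ y ∈ Y', f y) - ∑ y ∈ Y \ Y', f y‖ ≤ 2 * (Y \ Y').card := by
    refine (norm_sub_le _ _).trans ?_
    rw [norm_mul, norm_mul, norm_inv, Complex.norm_natCast, Complex.norm_natCast]
    have b4 : (Y'.card : ℝ)⁻¹ * ‖∑ y ∈ Y', f y‖ ≤ 1 := by
      rw [inv_mul_le_iff₀ hY']; linarith
    have b5 : ((Y \ Y').card : ℝ) * ((Y'.card : ℝ)⁻¹ * ‖∑ y ∈ Y', f y‖) ≤ (Y \ Y').card * 1 :=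
      mul_le_mul_of_nonneg_left b4 (Nat.cast_nonneg _)
    linarith
  calc (Y.card : ℝ)⁻¹ * ‖_‖ ≤ (Y.card : ℝ)⁻¹ * (2 * (Y \ Y').card) :=
        mul_le_mul_of_nonneg_left b3 (by positivity)
    _ ≤ (Y.card : ℝ)⁻¹ * (2 * (p * Y.card)) := by
        apply mul_le_mul_of_nonneg_left _ (by positivity)
        linarith
    _ = 2 * p := by field_simp

end SlopeB
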