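import Pool.Agent.Lib.BD46.FourY

set_option autoImplicit false

open scoped Matrix.Norms.Elementwise Real Topology
open Complex Matrix MP6feb Filter

noncomputable section

namespace SlopeB

/-- independent bounded elements have a non-zero minor -/
theorem f46_minor {b : ℕ} {E : Type} {c : E → (Fin b → ℤ) →+ ℤ} (hc : IsSys c) {k k' : Fin b → ℤ}
    (hk : k ∈ OO c) (hk' : k' ∈ OO c) (h0 : k ≠ 0) (h0' : k' ≠ 0) (h1 : k' ≠ k) (h2 : k' ≠ -k) :
    ∃ i j, k i * k' j - k j * k' i ≠ 0 := by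
  by_contra hcon
  push Not at hcon
  have he : ∃ e, c e k ≠ 0 := by
    by_contra h
    push Not at h
    exact h0 (hc.sp k h)
  obtain ⟨e, he⟩ := he
  have key : ∀ i, c e k' * k i = c e k * k' i := by
    intro i
    rw [f46_vec_apply (c e) k', f46_vec_apply (c e) k, Finset.sum_mul, Finset.sum_mul, ← sub_eq_zero,
      ← Finset.sum_sub_distrib]
    refine Finset.sum_eq_zero fun j _ => ?_
    have := hcon i j
    linear_combination (f46_vec (c e) j) * this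
  have ha : |c e k| ≤ 1 := hk e
  have hb : |c e k'| ≤ 1 := hk' e
  have hne : c e k' ≠ 0 := by
    intro h
    apply h0'
    funext i
    have := key i
    rw [h, zero_mul] at this
    rcases mul_eq_zero.mp this.symm with h3 | h3
    · exact absurd h3 he
    · simpa using h3
  have hk1 : c e k = 1 ∨ c e k = -1 := by
    rw [abs_le] at ha
    omega
  have hk2 : c e k' = 1 ∨ c e k' = -1 := by
    rw [abs_le] at hb
    omega
  rcases hk1 with h3 | h3 <;> rcases hk2 with h4 | h4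
  · apply h1
    funext i
    have := key i
    rw [h3, h4] at this
    linarith
  · apply h2
    funext i
    have := key i
    rw [h3, h4] at this
    simp only [Pi.neg_apply]
    linarith
  · apply h2
    funext i
    have := key i
    rw [h3, h4] at this
    simp only [Pi.neg_apply]
    linarith
  · apply h1
    funext i
    have := key i
    rw [h3, h4] at this
    linarith

/-- **Exclusion bound.** -/
theorem f46_excl {b : ℕ} {E : Type} [Finite E] {c : E → (Fin b → ℤ) →+ ℤ} (hc : IsSys c) :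
    ∃ C : ℕ, ∀ (K r : ℕ) (z : Fin b → ℤ), 1 ≤ K → r ≤ K →
      (Y0 c K z \ Yz c K r z).card * 4 ^ r ≤ C * (Y0 c K z).card := by
  classical
  have hfin := OO_finite hc
  let O : Finset (Fin b → ℤ) := hfin.toFinset
  let P : Finset ((Fin b → ℤ) × (Fin b → ℤ)) :=
    (O ×ˢ O).filter (fun q => q.1 ≠ 0 ∧ q.2 ≠ 0 ∧ q.2 ≠ q.1 ∧ q.2 ≠ -q.1)
  have hD : ∀ q : (Fin b → ℤ) × (Fin b → ℤ), ∃ D : ℕ, q ∈ P → ∀ K r : ℕ, r ≤ K →
      (Finset.univ.filter (fun y : Fin b → ZMod (2 ^ K) =>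
        (2 : ZMod (2 ^ K)) ^ r ∣ pr y q.1 ∧ (2 : ZMod (2 ^ K)) ^ r ∣ pr y q.2)).card * 4 ^ r ≤ D * (2 ^ K) ^ b := by
    intro q
    by_cases hq : q ∈ P
    · have hq' := hq
      simp only [P, O, Finset.mem_filter, Finset.mem_product, Set.Finite.mem_toFinset] at hq'
      obtain ⟨⟨h1, h2⟩, h3, h4, h5, h6⟩ := hq'
      obtain ⟨i, j, hij⟩ := f46_minor hc h1 h2 h3 h4 h5 h6
      exact ⟨_, fun _ K r hr => excl_pair hr q.1 q.2 i j hij⟩
    · exact ⟨0, fun h => absurd h hq⟩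
  choose D hD using hD
  refine ⟨(∑ q ∈ P, D q) * 2 ^ b, ?_⟩
  intro K r z hK hr
  have hsub : Y0 c K z \ Yz c K r z ⊆ P.biUnion (fun q => Finset.univ.filter (fun y : Fin b → ZMod (2 ^ K) =>
        (2 : ZMod (2 ^ K)) ^ r ∣ pr y q.1 ∧ (2 : ZMod (2 ^ K)) ^ r ∣ pr y q.2)) := by
    intro y hy
    rw [Finset.mem_sdiff, f46_mem_Yz] at hy
    obtain ⟨hy0, hy1⟩ := hy
    have hy2 : ¬ ∀ k ∈ OO c, ∀ k' ∈ OO c, k ≠ 0 → k' ≠ 0 → k' ≠ k → k' ≠ -k →
      ¬ ((2 : ZMod (2 ^ K)) ^ r ∣ pr y k ∧ (2 : ZMod (2 ^ K)) ^ r ∣ pr y k') := fun h => hy1 ⟨hy0, h⟩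
    push Not at hy2
    obtain ⟨k, hk, k', hk', h1, h2, h3, h4, h5⟩ := hy2
    rw [Finset.mem_biUnion]
    refine ⟨(k, k'), ?_, ?_⟩
    · simp only [P, O, Finset.mem_filter, Finset.mem_product, Set.Finite.mem_toFinset]
      exact ⟨⟨hk, hk'⟩, h1, h2, h3, h4⟩
    · simp only [Finset.mem_filter, Finset.mem_univ, true_and]
      exact h5
  have h1 := (Finset.card_le_card hsub).trans Finset.card_biUnion_le
  calc (Y0 c K z \ Yz c K r z).card * 4 ^ r
      ≤ (∑ q ∈ P, (Finset.univ.filter (fun y : Fin b → ZMod (2 ^ K) =>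
        (2 : ZMod (2 ^ K)) ^ r ∣ pr y q.1 ∧ (2 : ZMod (2 ^ K)) ^ r ∣ pr y q.2)).card) * 4 ^ r :=
        Nat.mul_le_mul_right _ h1
    _ = ∑ q ∈ P, (Finset.univ.filter (fun y : Fin b → ZMod (2 ^ K) =>
        (2 : ZMod (2 ^ K)) ^ r ∣ pr y q.1 ∧ (2 : ZMod (2 ^ K)) ^ r ∣ pr y q.2)).card * 4 ^ r := by
        rw [Finset.sum_mul]
    _ ≤ ∑ q ∈ P, D q * (2 ^ K) ^ b := Finset.sum_le_sum fun q hq => hD q hq K r hr
    _ = (∑ q ∈ P, D q) * (2 ^ K) ^ b := by rw [Finset.sum_mul]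
    _ ≤ (∑ q ∈ P, D q) * (2 ^ b * (Y0 c K z).card) := Nat.mul_le_mul_left _ (f46_Y0_card hc hK z)
    _ = (∑ q ∈ P, D q) * 2 ^ b * (Y0 c K z).card := by ring

/-! ## Odd multiples -/

theorem f46_pr_smul {b n : ℕ} (j : ℤ) (y : Fin b → ZMod n) (s : Fin b → ℤ) :
    pr y (fun t => j * s t) = (j : ZMod n) * pr y s := by
  simp only [pr, Finset.mul_sum]
  refine Finset.sum_congr rfl fun i _ => ?_
  push_cast
  ring

theorem f46_unit {K : ℕ} {j : ℤ} (hj : ¬ (2 : ℤ) ∣ j) : IsUnit (j : ZMod (2 ^ K)) := by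
  have h1 : IsCoprime j ((2 ^ K : ℕ) : ℤ) := by
    push_cast
    apply IsCoprime.pow_right
    rw [Int.isCoprime_iff_gcd_eq_one, Int.gcd_comm]
    rcases Int.emod_two_eq_zero_or_one j with h | h
    · exact absurd (Int.dvd_of_emod_eq_zero h) hj
    · have : Int.gcd 2 j = Int.gcd 2 (j % 2) := by
        rw [Int.gcd_comm 2 (j % 2), Int.gcd_comm 2 j]
        exact (Int.gcd_emod j 2).symm
      rw [this, h]
      rfl
  obtain ⟨a, c, h⟩ := h1
  have h2 := congrArg (fun x : ℤ => (x : ZMod (2 ^ K))) h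
  simp only [Int.cast_add, Int.cast_mul, Int.cast_natCast, ZMod.natCast_self, mul_zero, add_zero, Int.cast_one] at h2
  exact IsUnit.of_mul_eq_one (a : ZMod (2 ^ K)) (by rw [mul_comm]; exact h2)

theorem f46_Y_odd {b : ℕ} {K : ℕ} (Y : Finset (Fin b → ZMod (2 ^ K))) {j : ℤ} (hj : ¬ (2 : ℤ) ∣ j)
    (hY : ∀ y ∈ Y, (fun i => (j : ZMod (2 ^ K)) * y i) ∈ Y) (s : Fin b → ℤ) :
    ∑ y ∈ Y, ch K y (fun t => j * s t) = ∑ y ∈ Y, ch K y s := by
  classical
  have hu := f46_unit (K := K) hj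
  have hinj : Function.Injective (fun y : Fin b → ZMod (2 ^ K) => (fun i => (j : ZMod (2 ^ K)) * y i)) := by
    intro y y' h
    funext i
    exact hu.mul_left_cancel (congrFun h i)
  have himg : Y.image (fun y => (fun i => (j : ZMod (2 ^ K)) * y i)) = Y := by
    apply Finset.eq_of_subset_of_card_le
    · intro y hy
      obtain ⟨y', hy', rfl⟩ := Finset.mem_image.mp hy
      exact hY y' hy'
    · rw [Finset.card_image_of_injective _ hinj]
  conv_rhs => rw [← himg]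
  rw [Finset.sum_image (fun a _ b _ h => hinj h)]
  refine Finset.sum_congr rfl fun y _ => ?_
  rw [f46_ch, f46_ch, f46_pr_smul, f46_smul_pr]

theorem f46_Yz_odd {b : ℕ} {E : Type} (c : E → (Fin b → ℤ) →+ ℤ) (K r : ℕ) (z : Fin b → ℤ) {j : ℤ}
    (hj : ¬ (2 : ℤ) ∣ j) (s : Fin b → ℤ) :
    fz K (Yz c K r z) (fun t => j * s t) = fz K (Yz c K r z) s := by
  rw [fz, fz, f46_Y_odd _ hj]
  intro y hy
  have hu := f46_unit (K := K) hj
  rw [f46_mem_Yz, f46_mem_Y0] at hy ⊢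
  simp only [f46_smul_pr, hu.dvd_mul_left]
  exact hy

end SlopeB
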