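import Pool.Agent.Lib.BD46.Four
import Pool.Agent.Lib.BD46.ExclP
import Pool.Agent.Lib.SlopeB.KKl

set_option autoImplicit false

open scoped Matrix.Norms.Elementwise Real Topology
open Complex Matrix MP6feb Filter

noncomputable section

namespace SlopeB

/-- coefficients of a functional -/
def f46_vec {b : ℕ} (f : (Fin b → ℤ) →+ ℤ) (i : Fin b) : ℤ := f (Pi.single i 1)

theorem f46_vec_apply {b : ℕ} (f : (Fin b → ℤ) →+ ℤ) (h : Fin b → ℤ) :
    f h = ∑ i, f46_vec f i * h i := by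
  conv_lhs => rw [← Finset.univ_sum_single h]
  rw [map_sum]
  refine Finset.sum_congr rfl fun i _ => ?_
  have : (Pi.single i (h i) : Fin b → ℤ) = (h i) • Pi.single i 1 := by
    rw [← Pi.single_smul]; simp
  rw [this, map_zsmul, f46_vec, smul_eq_mul, mul_comm]

theorem f46_pr_vec {b n : ℕ} (f : (Fin b → ℤ) →+ ℤ) (h : Fin b → ℤ) :
    pr (n := n) (fun i => (f46_vec f i : ZMod n)) h = ((f h : ℤ) : ZMod n) := by
  rw [f46_vec_apply f h, pr]
  push_cast
  rfl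

theorem f46_two_dvd {K : ℕ} (hK : 1 ≤ K) (x : ℤ) : (2 : ZMod (2 ^ K)) ∣ (x : ZMod (2 ^ K)) ↔ (2 : ℤ) ∣ x := by
  constructor
  · intro h
    have h1 := (dvd_iff_castHom (r := 1) hK (x : ZMod (2 ^ K))).mp (by rwa [pow_one])
    rw [map_intCast, ZMod.intCast_zmod_eq_zero_iff_dvd] at h1
    simpa using h1
  · rintro ⟨y, rfl⟩
    exact ⟨(y : ZMod (2 ^ K)), by push_cast; rfl⟩

theorem f46_smul_pr {b n : ℕ} (a : ZMod n) (u : Fin b → ZMod n) (s : Fin b → ℤ) :
    pr (fun i => a * u i) s = a * pr u s := by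
  simp [pr, Finset.mul_sum, mul_assoc]

theorem f46_mem_Y0 {b : ℕ} {E : Type} {c : E → (Fin b → ℤ) →+ ℤ} {K : ℕ} {z : Fin b → ℤ}
    {y : Fin b → ZMod (2 ^ K)} : y ∈ Y0 c K z ↔ ∀ k ∈ KK c z, ¬ ((2 : ZMod (2 ^ K)) ∣ pr y k) := by
  simp [Y0]

theorem f46_mem_Yz {b : ℕ} {E : Type} {c : E → (Fin b → ℤ) →+ ℤ} {K r : ℕ} {z : Fin b → ℤ}
    {y : Fin b → ZMod (2 ^ K)} : y ∈ Yz c K r z ↔ y ∈ Y0 c K z ∧
      ∀ k ∈ OO c, ∀ k' ∈ OO c, k ≠ 0 → k' ≠ 0 → k' ≠ k → k' ≠ -k →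
    ¬ ((2 : ZMod (2 ^ K)) ^ r ∣ pr y k ∧ (2 : ZMod (2 ^ K)) ^ r ∣ pr y k') := by
  simp [Yz]

/-- `Y0` is stable under adding functionals with even values on the common blocks -/
theorem f46_Y0_add {b : ℕ} {E : Type} {c : E → (Fin b → ℤ) →+ ℤ} {K : ℕ} {z : Fin b → ℤ}
    {y u : Fin b → ZMod (2 ^ K)} (hu : ∀ k ∈ KK c z, (2 : ZMod (2 ^ K)) ∣ pr u k)
    (hy : y ∈ Y0 c K z) : y + u ∈ Y0 c K z := by
  rw [f46_mem_Y0] at hy ⊢
  intro k hk h
  rw [f46_pr_add] at h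
  exact hy k hk ((dvd_add_left (hu k hk)).mp h)

theorem f46_Yz_add {b : ℕ} {E : Type} {c : E → (Fin b → ℤ) →+ ℤ} {K r : ℕ} (hr : 1 ≤ r) {z : Fin b → ℤ}
    {y u : Fin b → ZMod (2 ^ K)} (hu : ∀ k, (2 : ZMod (2 ^ K)) ^ r ∣ pr u k)
    (hy : y ∈ Yz c K r z) : y + u ∈ Yz c K r z := by
  rw [f46_mem_Yz] at hy ⊢
  refine ⟨f46_Y0_add (fun k _ => (dvd_pow_self 2 (by omega)).trans (hu k)) hy.1, ?_⟩
  intro k hk k' hk' h1 h2 h3 h4 h
  rw [f46_pr_add, f46_pr_add] at h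
  exact hy.2 k hk k' hk' h1 h2 h3 h4 ⟨(dvd_add_left (hu k)).mp h.1, (dvd_add_left (hu k')).mp h.2⟩

/-- character of a multiple of a unit vector -/
theorem f46_ch_single {b K : ℕ} (a : ℤ) (t : Fin b) (s : Fin b → ℤ) :
    ch K (fun i => (a : ZMod (2 ^ K)) * (Pi.single t 1 : Fin b → ZMod (2 ^ K)) i) s = 1 ↔
      (2 : ℤ) ^ K ∣ a * s t := by
  have h1 : pr (fun i => (a : ZMod (2 ^ K)) * (Pi.single t 1 : Fin b → ZMod (2 ^ K)) i) s = ((a * s t : ℤ) : ZMod (2 ^ K)) := by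
    rw [f46_smul_pr, pr, Finset.sum_eq_single t]
    · simp
    · intro t' _ ht
      simp [Pi.single_eq_of_ne ht]
    · simp
  rw [f46_ch, h1, ← AddChar.map_zero_eq_one (ZMod.stdAddChar (N := 2 ^ K)), ZMod.injective_stdAddChar.eq_iff,
    ZMod.intCast_zmod_eq_zero_iff_dvd]
  push_cast
  rfl

/-- the Fourier coefficients of `Y0` at order at least four vanish -/
theorem f46_Y0_four {b : ℕ} {E : Type} (c : E → (Fin b → ℤ) →+ ℤ) (K : ℕ) (z s : Fin b → ℤ)
    (hs : ∃ t, ¬ ((2 : ℤ) ^ K ∣ 2 * s t)) : fz K (Y0 c K z) s = 0 := by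
  obtain ⟨t, ht⟩ := hs
  rw [fz, f46_vanish _ (fun i => ((2 : ℤ) : ZMod (2 ^ K)) * (Pi.single t 1 : Fin b → ZMod (2 ^ K)) i) s, mul_zero]
  · intro y hy
    refine f46_Y0_add (fun k _ => ?_) hy
    rw [f46_smul_pr]
    exact ⟨_, by push_cast; rfl⟩
  · rw [Ne, f46_ch_single]
    exact ht

/-- the Fourier coefficients of `Yz` at order larger than `2^r` vanish -/
theorem f46_Yz_four {b : ℕ} {E : Type} (c : E → (Fin b → ℤ) →+ ℤ) (K r : ℕ) (hr : 1 ≤ r) (z s : Fin b → ℤ)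
    (hs : ∃ t, ¬ ((2 : ℤ) ^ K ∣ 2 ^ r * s t)) : fz K (Yz c K r z) s = 0 := by
  obtain ⟨t, ht⟩ := hs
  rw [fz, f46_vanish _ (fun i => (((2 : ℤ) ^ r : ℤ) : ZMod (2 ^ K)) * (Pi.single t 1 : Fin b → ZMod (2 ^ K)) i) s, mul_zero]
  · intro y hy
    refine f46_Yz_add hr (fun k => ?_) hy
    rw [f46_smul_pr]
    exact ⟨_, by push_cast; rfl⟩
  · rw [Ne, f46_ch_single]
    exact ht

/-- at order two the Fourier coefficient of `Y0` vanishes unless the support is contained -/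
theorem f46_Y0_two {b : ℕ} {E : Type} {c : E → (Fin b → ℤ) →+ ℤ} (hc : IsSys c) {K : ℕ} (hK : 1 ≤ K)
    {z s : Fin b → ℤ} {e : E} (hz : (2 : ℤ) ∣ c e z) (hs : ¬ ((2 : ℤ) ^ K ∣ c e s)) :
    fz K (Y0 c K z) s = 0 := by
  rw [fz, f46_vanish _ (fun i => (f46_vec (c e) i : ZMod (2 ^ K))) s, mul_zero]
  · intro y hy
    refine f46_Y0_add (fun k hk => ?_) hy
    rw [f46_pr_vec]
    have : c e k = 0 := by
      by_contra hne
      exact KK_odd_z hc hk hne hz
    rw [this]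
    simp
  · intro h
    rw [f46_ch, f46_pr_vec, ← AddChar.map_zero_eq_one (ZMod.stdAddChar (N := 2 ^ K)),
      ZMod.injective_stdAddChar.eq_iff, ZMod.intCast_zmod_eq_zero_iff_dvd] at h
    apply hs
    exact_mod_cast h

/-- at least a proportion `2^(-b)` of the functionals lies in `Y0` -/
theorem f46_Y0_card {b : ℕ} {E : Type} [Finite E] {c : E → (Fin b → ℤ) →+ ℤ} (hc : IsSys c) {K : ℕ} (hK : 1 ≤ K)
    (z : Fin b → ℤ) : (2 ^ K) ^ b ≤ 2 ^ b * (Y0 c K z).card := by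
  classical
  obtain ⟨y₀, hy₀⟩ := KK_y hc z
  let y0 : Fin b → ZMod (2 ^ K) := fun i => (f46_vec y₀ i : ZMod (2 ^ K))
  have hy0 : y0 ∈ Y0 c K z := by
    rw [f46_mem_Y0]
    intro k hk
    rw [f46_pr_vec, f46_two_dvd hK]
    exact hy₀ k hk
  have h := Finset.card_le_mul_card_image_of_maps_to (s := (Finset.univ : Finset (Fin b → ZMod (2 ^ K))))
    (t := Y0 c K z) (f := fun y => y0 + fun i => 2 * y i) (by
      intro y _
      refine f46_Y0_add (fun k _ => ?_) hy0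
      rw [f46_smul_pr]
      exact ⟨_, rfl⟩) (2 ^ b) (by
      intro y _
      by_cases hne : ((Finset.univ : Finset (Fin b → ZMod (2 ^ K))).filter (fun x => (y0 + fun i => 2 * x i) = y)).Nonempty
      · obtain ⟨p, hp⟩ := hne
        rw [Finset.mem_filter] at hp
        have hsub : ((Finset.univ : Finset (Fin b → ZMod (2 ^ K))).filter (fun x => (y0 + fun i => 2 * x i) = y)).card
            ≤ (Fintype.piFinset (fun _ : Fin b => (Finset.univ.filter (fun x : ZMod (2 ^ K) => ((2:ℤ) : ZMod (2 ^ K)) * x = 0)))).card := by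
          refine Finset.card_le_card_of_injOn (fun x => x - p) ?_ ?_
          · intro x hx
            simp only [Finset.coe_filter, Finset.mem_univ, true_and, Set.mem_ofPred_eq] at hx
            rw [Finset.mem_coe, Fintype.mem_piFinset]
            intro i
            rw [Finset.mem_filter]
            refine ⟨Finset.mem_univ _, ?_⟩
            have e1 := congrFun (hx.trans hp.2.symm) i
            simp only [Pi.add_apply, add_right_inj] at e1
            simp only [Pi.sub_apply, mul_sub]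
            push_cast
            rw [e1, sub_self]
          · intro x _ x' _ hxx
            exact sub_left_injective hxx
        refine hsub.trans ?_
        rw [Fintype.card_piFinset]
        have := MP6bd.card_mul_zero_le (2 ^ K) 2 (by norm_num)
        calc _ ≤ ∏ _i : Fin b, 2 := Finset.prod_le_prod' fun i _ => this
          _ = 2 ^ b := by simp
      · rw [Finset.not_nonempty_iff_eq_empty] at hne
        rw [hne]
        simp)
  rw [Finset.card_univ, Fintype.card_fun, ZMod.card, Fintype.card_fin] at h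
  exact h

end SlopeB
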