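import Mathlib

open Polynomial

namespace MP6bd

/-- the standard primitive root of unity of order `2^K` -/
noncomputable def zt (K : ℕ) : ℂ := Complex.exp (2 * Real.pi * Complex.I / (2:ℂ)^K)

theorem zt_prim (K : ℕ) : IsPrimitiveRoot (zt K) (2^K) := by
  have := Complex.isPrimitiveRoot_exp (2^K) (by positivity)
  simpa [zt] using this

theorem zt_ne (K : ℕ) : zt K ≠ 0 := Complex.exp_ne_zero _

theorem zt_pow (s d : ℕ) : zt (s + d) ^ (2^d) = zt s := by
  rw [zt, zt, ← Complex.exp_nat_mul]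
  congr 1
  push_cast
  field_simp
  ring

theorem zt_zpow (K : ℕ) (m : ℤ) : zt K ^ m = Complex.exp (2 * Real.pi * Complex.I * m / (2:ℂ)^K) := by
  rw [zt, ← Complex.exp_int_mul]
  congr 1
  ring

theorem zt_int (K : ℕ) : IsIntegral ℚ (zt K) :=
  ((zt_prim K).isIntegral (by positivity)).tower_top

open IntermediateField in
theorem EK_finrank (K : ℕ) (hK : 1 ≤ K) : Module.finrank ℚ ℚ⟮zt K⟯ = 2^(K-1) := by
  rw [IntermediateField.adjoin.finrank (zt_int K),
    ← Polynomial.cyclotomic_eq_minpoly_rat (zt_prim K) (by positivity), Polynomial.natDegree_cyclotomic,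
    Nat.totient_prime_pow Nat.prime_two hK]
  simp

open IntermediateField in
theorem deg_le (s0 K : ℕ) (h1 : 1 ≤ s0) (hK : s0 ≤ K) :
    2^(K - s0) ≤ (minpoly ℚ⟮zt s0⟯ (zt K)).natDegree := by
  have hi : IsIntegral ℚ⟮zt s0⟯ (zt K) := (zt_int K).tower_top
  rw [← IntermediateField.adjoin.finrank hi]
  have : FiniteDimensional ℚ ℚ⟮zt s0⟯ := IntermediateField.adjoin.finiteDimensional (zt_int s0)
  have : FiniteDimensional ℚ⟮zt s0⟯ ℚ⟮zt s0⟯⟮zt K⟯ := IntermediateField.adjoin.finiteDimensional hi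
  have ht := Module.finrank_mul_finrank ℚ ℚ⟮zt s0⟯ ℚ⟮zt s0⟯⟮zt K⟯
  rw [EK_finrank s0 h1] at ht
  have : FiniteDimensional ℚ ℚ⟮zt s0⟯⟮zt K⟯ := FiniteDimensional.trans ℚ ℚ⟮zt s0⟯ ℚ⟮zt s0⟯⟮zt K⟯
  have hle : ℚ⟮zt K⟯ ≤ (ℚ⟮zt s0⟯⟮zt K⟯).restrictScalars ℚ := by
    rw [IntermediateField.adjoin_simple_le_iff, IntermediateField.mem_restrictScalars]
    exact IntermediateField.mem_adjoin_simple_self _ _
  have : FiniteDimensional ℚ ((ℚ⟮zt s0⟯⟮zt K⟯).restrictScalars ℚ) := ‹FiniteDimensional ℚ ℚ⟮zt s0⟯⟮zt K⟯›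
  have h2 := IntermediateField.finrank_le_of_le_right hle
  rw [EK_finrank K (h1.trans hK)] at h2
  have h3 : Module.finrank ℚ ((ℚ⟮zt s0⟯⟮zt K⟯).restrictScalars ℚ) = Module.finrank ℚ ℚ⟮zt s0⟯⟮zt K⟯ := rfl
  rw [h3, ← ht] at h2
  have h4 : 2^(K-1) = 2^(s0-1) * 2^(K-s0) := by rw [← pow_add]; congr 1; omega
  rw [h4] at h2
  exact Nat.le_of_mul_le_mul_left h2 (by positivity)

/-- the field generated by all roots of unity of two power order -/
noncomputable def Qinf : IntermediateField ℚ ℂ := ⨆ s : ℕ, IntermediateField.adjoin ℚ {zt s}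

theorem E_mono : Monotone (fun s : ℕ => IntermediateField.adjoin ℚ {zt s}) := by
  intro s t hst
  obtain ⟨d, rfl⟩ := Nat.exists_eq_add_of_le hst
  simp only
  rw [IntermediateField.adjoin_simple_le_iff, ← zt_pow s d]
  exact pow_mem (IntermediateField.mem_adjoin_simple_self _ _) _

theorem mem_Qinf {x : ℂ} (hx : x ∈ Qinf) : ∃ s : ℕ, x ∈ IntermediateField.adjoin ℚ {zt s} := by
  have h : (x : ℂ) ∈ ((⨆ s : ℕ, IntermediateField.adjoin ℚ {zt s} : IntermediateField ℚ ℂ) : Set ℂ) := hx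
  rw [IntermediateField.coe_iSup_of_directed (Monotone.directed_le E_mono)] at h
  simpa using h

theorem E_le_Qinf (s : ℕ) : IntermediateField.adjoin ℚ {zt s} ≤ Qinf :=
  le_iSup (fun s : ℕ => IntermediateField.adjoin ℚ {zt s}) s

/-- **Lemma C.** For finitely many nonzero complex numbers, a vanishing combination with roots of unity of large
two power order forces coincidences. -/
theorem lemmaC {ι : Type*} [Finite ι] (A : ι → ℂ) (hA : ∀ h, A h ≠ 0) :
    ∃ s0 : ℕ, 1 ≤ s0 ∧ ∀ K : ℕ, s0 ≤ K → ∀ (S : Finset ι) (m : ι → ℤ),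
      ∑ h ∈ S, A h * Complex.exp (2 * Real.pi * Complex.I * (m h) / (2:ℂ)^K) = 0 →
      ∀ h ∈ S, ∃ h' ∈ S, h' ≠ h ∧ (2:ℤ)^(K - s0) ∣ m h - m h' := by
  classical
  have := Fintype.ofFinite ι
  have hlam : ∀ h : ι, ∃ φ : ℂ →ₗ[Qinf] Qinf, φ (A h) ≠ 0 := by
    intro h
    by_contra hcon
    push Not at hcon
    exact hA h ((Module.forall_dual_apply_eq_zero_iff Qinf (A h)).mp hcon)
  choose lam hlam using hlam
  have hs : ∀ h h' : ι, ∃ s : ℕ, ((lam h (A h') : Qinf) : ℂ) ∈ IntermediateField.adjoin ℚ {zt s} :=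
    fun h h' => mem_Qinf (lam h (A h')).2
  choose s hs using hs
  refine ⟨1 + ∑ h, ∑ h', s h h', by omega, ?_⟩
  intro K hK S m hsum h hhS
  set s0 := 1 + ∑ h, ∑ h', s h h' with hs0
  have hmem : ∀ h', ((lam h (A h') : Qinf) : ℂ) ∈ IntermediateField.adjoin ℚ {zt s0} := by
    intro h'
    refine E_mono ?_ (hs h h')
    have h1 : s h h' ≤ ∑ h', s h h' := Finset.single_le_sum (f := fun h' => s h h') (fun _ _ => Nat.zero_le _) (Finset.mem_univ h')
    have h2 : ∑ h', s h h' ≤ ∑ h, ∑ h', s h h' := Finset.single_le_sum (f := fun h => ∑ h', s h h') (fun _ _ => Nat.zero_le _) (Finset.mem_univ h)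
    omega
  by_contra hcon
  push Not at hcon
  -- apply the functional
  have hz : ∑ h' ∈ S, ((lam h (A h') : Qinf) : ℂ) * zt K ^ (m h') = 0 := by
    have hzt : ∀ m : ℤ, zt K ^ m ∈ Qinf := fun m =>
      zpow_mem (E_le_Qinf K (IntermediateField.mem_adjoin_simple_self _ _)) m
    have e1 : lam h (∑ h' ∈ S, A h' * Complex.exp (2 * Real.pi * Complex.I * (m h') / (2:ℂ)^K)) = 0 := by
      rw [hsum, map_zero]
    rw [map_sum] at e1
    have e2 : ∀ h' ∈ S, lam h (A h' * Complex.exp (2 * Real.pi * Complex.I * (m h') / (2:ℂ)^K))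
        = (⟨zt K ^ (m h'), hzt (m h')⟩ : Qinf) * lam h (A h') := by
      intro h' _
      rw [← smul_eq_mul (α := Qinf), ← map_smul]
      congr 1
      rw [← zt_zpow, IntermediateField.smul_def, smul_eq_mul]
      simp only
      ring
    rw [Finset.sum_congr rfl e2] at e1
    have e3 := congrArg (fun x : Qinf => (x : ℂ)) e1
    simp only [ZeroMemClass.coe_zero, AddSubmonoidClass.coe_finsetSum, MulMemClass.coe_mul] at e3
    rw [← e3]
    refine Finset.sum_congr rfl fun h' _ => ?_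
    ring
  have h1 : 1 ≤ s0 := by omega
  set n : ℕ := 2^(K - s0) with hn
  have hnpos : 0 < n := by positivity
  have hzn : zt K ^ n = zt s0 := by
    have := zt_pow s0 (K - s0)
    rwa [Nat.add_sub_cancel' hK] at this
  -- coefficients
  let q : ι → ℤ := fun h' => m h' / n
  let r : ι → ℕ := fun h' => (m h' % n).toNat
  have hr : ∀ h', (r h' : ℤ) = m h' % n := fun h' => Int.toNat_of_nonneg (Int.emod_nonneg _ (by positivity))
  have hrlt : ∀ h', r h' < n := by
    intro h'
    have := Int.emod_lt_of_pos (m h') (b := (n:ℤ)) (by exact_mod_cast hnpos)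
    rw [← hr] at this
    exact_mod_cast this
  have hzm : ∀ h', zt K ^ (m h') = zt s0 ^ (q h') * zt K ^ (r h') := by
    intro h'
    rw [← hzn, ← zpow_natCast, ← zpow_natCast, ← zpow_mul, ← zpow_add₀ (zt_ne K)]
    congr 1
    rw [hr]
    exact (Int.mul_ediv_add_emod (m h') n).symm
  let F := IntermediateField.adjoin ℚ {zt s0}
  let zF : F := ⟨zt s0, IntermediateField.mem_adjoin_simple_self _ _⟩
  let d : ι → F := fun h' => ⟨((lam h (A h') : Qinf) : ℂ), hmem h'⟩ * zF ^ (q h')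
  have hd : ∀ h', ((d h' : F) : ℂ) = ((lam h (A h') : Qinf) : ℂ) * zt s0 ^ (q h') := by
    intro h'
    have e := map_zpow₀ (algebraMap F ℂ) zF (q h')
    have e1 : ((d h' : F) : ℂ) = ((lam h (A h') : Qinf) : ℂ) * ((zF ^ (q h') : F) : ℂ) := rfl
    rw [e1]
    exact congrArg _ e
  let P : F[X] := ∑ h' ∈ S, C (d h') * X ^ (r h')
  have hPdeg : P.natDegree < n := by
    refine lt_of_le_of_lt (Polynomial.natDegree_sum_le_of_forall_le (n := n - 1) S _ ?_) (by omega)
    intro h' _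
    exact (Polynomial.natDegree_C_mul_X_pow_le _ _).trans (by have := hrlt h'; omega)
  have hPz : aeval (zt K) P = 0 := by
    simp only [P, map_sum, map_mul, aeval_C, map_pow, aeval_X]
    rw [← hz]
    refine Finset.sum_congr rfl fun h' _ => ?_
    rw [hzm h']
    have : (algebraMap F ℂ) (d h') = ((d h' : F) : ℂ) := rfl
    rw [this, hd]
    ring
  have hP0 : P = 0 := by
    by_contra hne
    have h3 := Polynomial.natDegree_le_of_dvd (minpoly.dvd F (zt K) hPz) hne
    have h4 : n ≤ (minpoly F (zt K)).natDegree := deg_le s0 K h1 hK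
    omega
  have hcoef : P.coeff (r h) = d h := by
    simp only [P, Polynomial.finsetSum_coeff, Polynomial.coeff_C_mul, Polynomial.coeff_X_pow]
    rw [Finset.sum_eq_single h]
    · simp
    · intro h' hh' hne
      have hnd := hcon h' hh' hne
      have : r h ≠ r h' := by
        intro he
        apply hnd
        have e : m h % n = m h' % n := by rw [← hr, ← hr, he]
        have e2 : (n : ℤ) ∣ m h - m h' := Int.ModEq.dvd (Int.ModEq.symm e)
        rw [hn] at e2
        push_cast at e2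
        exact e2
      simp [this]
    · intro hh
      exact absurd hhS hh
  rw [hP0, Polynomial.coeff_zero] at hcoef
  have h5 := hd h
  rw [← hcoef] at h5
  simp only [ZeroMemClass.coe_zero] at h5
  have h6 := mul_eq_zero.mp h5.symm
  rcases h6 with h6 | h6
  · apply hlam h
    exact_mod_cast h6
  · exact zpow_ne_zero _ (zt_ne s0) h6

end MP6bd
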